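import Pool.Agent.K7.H77.Dem.Char

set_option autoImplicit false

/-!
# A Demushkin group which is not self-similar of index `p`

`GG` is the pro-`2` completion of the group `⟨x, y, z | x² y⁵ z = z y⟩`.

Sketch of the proof. Let `G` be a Demushkin pro-`2` group with `d(G) = 3`, and let `φ : H → G` be the
virtual endomorphism of a faithful self-similar action on the binary tree which is transitive on the
first level, so that `H` has index two and no nontrivial normal subgroup `N ≤ H` of `G` has
`φ(N) ≤ N`. If `φ` is not injective, then `ker φ` and its conjugate intersect trivially, so they
commute; but two commuting elements of `G` topologically generate a procyclic group, since cup products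
vanish on closed subgroups of infinite index. If `φ` is injective, its image is open for the same
reason, and it has index two by the formula for the rank of open subgroups. The dualizing character
`θ` of `G` modulo `8` is preserved by isomorphisms of open subgroups, so `θ ∘ φ = θ`. For the group above
`θ` is onto `(ℤ/8)ˣ`, so it accounts for four of the eight elements of `H¹(G, ℤ/2)`. It follows that
`H ∩ φ(H)` is `H` or the kernel in `H` of a quadratic character which factors through `θ`, and hence it
is a nontrivial normal subgroup of `G` which is invariant under `φ`.
-/

namespace Pool.Agent.Results.MP_33d618_al.NotSelfSimilar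

open Pool.Agent.K7.H77.Dem

/-- The pro-`2` completion `GG` of `⟨x, y, z | x² y⁵ z = z y⟩` is a Demushkin group with
`d(GG) = 3`, and it is not self-similar of index `2`. -/
theorem result : IsDemushkin 2 GG ∧ d 2 GG = 3 ∧ ¬ IsSelfSimilarOfIndex 2 GG :=
  ⟨isDemushkin_GG, d_GG, not_selfSimilar_GG⟩

end Pool.Agent.Results.MP_33d618_al.NotSelfSimilar
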